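import Pool.Agent.helper66.VK.G3

/-!
Prime powers dividing the central binomial coefficient.

The exponent of `p` in `C(2n, n)` is the number of carries when `n` is added to itself in base `p`,
i.e. the number of `j ≥ 1` for which the fractional part of `n / p ^ j` is at least `1 / 2`.  We
average this number over the primes `p` of an interval `(P, 4 P]`.  With the minorant
`(sin² (2πt) - sin (2πt)) / 2` of the indicator function of `[1/2, 1)` only the single sums
`∑ log p * e(n / p ^ j)` have to be estimated; this is done by Vaughan's identity and the method of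
Vinogradov and Korobov (mean value theorem and bilinear inequality with explicit constants), and the
estimate is nontrivial as soon as `log P ≥ C (log n)^(2/3) (log log n)^(1/3)`.
-/

namespace Pool.Agent.Results.MP_672c93_nt.ManyCarries

open Finset

/-- The primes `p` with `P < p ≤ 4 P` for which `p ^ v` with some `v ≥ y` divides `C(2n, n)`. -/
noncomputable def carryPrimes (n P : ℕ) (y : ℝ) : Finset ℕ :=
  open scoped Classical in
  (Ioc P (4 * P)).filter fun p => p.Prime ∧ y ≤ (padicValNat p (Nat.centralBinom n) : ℝ)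

/-- (1) There are `δ, C > 0` such that for all large `n` and all `P` with
`exp (C (log n)^(2/3) (log log n)^(1/3)) ≤ P ≤ n^(1/10)` at least `δ P / log P` primes `p` of
`(P, 4 P]` have `v_p(C(2n, n)) ≥ δ log n / log P`.
(2) There is `c > 0` such that for all large `n` at least `exp ((log n)^(2/3))` primes `p` have
`v_p(C(2n, n)) ≥ c (log n / log log n)^(1/3)`. -/
theorem result :
    (∃ δ C : ℝ, 0 < δ ∧ 0 < C ∧ ∃ n₀ : ℕ, ∀ n P : ℕ, n₀ ≤ n →
      Real.exp (C * Real.log n ^ (2 / 3 : ℝ) * Real.log (Real.log n) ^ (1 / 3 : ℝ)) ≤ P →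
      P ^ 10 ≤ n →
      δ * P / Real.log P ≤ ((carryPrimes n P (δ * Real.log n / Real.log P)).card : ℝ)) ∧
    (∃ c : ℝ, 0 < c ∧ ∃ n₀ : ℕ, ∀ n : ℕ, n₀ ≤ n → ∃ S : Finset ℕ,
      Real.exp (Real.log n ^ (2 / 3 : ℝ)) ≤ (S.card : ℝ) ∧
      ∀ p ∈ S, p.Prime ∧
        c * (Real.log n / Real.log (Real.log n)) ^ (1 / 3 : ℝ) ≤
          (padicValNat p (Nat.centralBinom n) : ℝ)) := by
  constructor
  · obtain ⟨δ, C, hδ, hC, n₀, h⟩ := Pool.Agent.helper66.VK.uniform
    refine ⟨δ, C, hδ, hC, n₀, fun n P hn h1 h2 => ?_⟩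
    exact h n P hn h1 h2
  · exact Pool.Agent.helper66.VK.final

end Pool.Agent.Results.MP_672c93_nt.ManyCarries
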